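import Pool.Agent.V11242.SS.Ineq
import Pool.Agent.V11242.SS.Forced

/-!
# It is consistent that `cov(M) < 𝔰𝔰_c`

* There is a preordered set of forcing conditions which preserves all cardinals and forces Martin's
  axiom for `ℵ₁` dense sets (`MartinFor Om1`; see `Pool.Agent.W684.FM`).
* If Martin's axiom for `ℵ₁` dense sets holds, then there are a set `K` (of cardinality `ℵ₁`) and a
  preordered set of conditions (the measure algebra which adds `ℵ₂` random reals), which satisfies
  the countable chain condition, every condition of which forces the sentence `Ψ`: there is a family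
  of elements of `2^ω`, indexed by `K`, which is not null; no family of null sets indexed by `K`
  covers `2^ω`; every family of functions from `ω` to `ω` indexed by `K` is bounded by one function,
  in the sense of eventual domination. In other words, `non(N) ≤ |K| < cov(N)` and `|K| < 𝔟`.
* The sentence `Ψ` implies that `cov(M) < 𝔰𝔰_c`.

Therefore `cov(M) < 𝔰𝔰_c` is consistent (a two-step forcing argument: first Martin's axiom is
forced, then `Ψ` is forced over the extension).

A sentence of the forcing language is the set of the conditions which force it; `fnot`, `fand`,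
`fall` are the usual clauses of the definition of forcing and `fimp`, `fex` are defined from them
classically. The sentence `PsiHolds P K` is the translation of the proposition `PsiFor K` into the
forcing language. `covM` is the covering number of the meagre ideal on the real line and `ssc` is
`𝔰𝔰_c`.
-/

set_option autoImplicit false

namespace Pool.Agent.Results.MP_70b496_lc.CovLtSubseries

open Pool.Agent.V11242.SS

theorem result :
    -- Martin's axiom for `ℵ₁` dense sets can be forced
    (∃ (P : Type) (_ : Preorder P), Nonempty P ∧ ∀ p : P,
      p ∈ Pool.Agent.Helper669.Forcing.CardinalsPreserved.{0, 0} P ∧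
      p ∈ Pool.Agent.W684.FM.OmegaOnePreserved P ∧
      p ∈ Pool.Agent.W684.FM.MartinHolds P Pool.Agent.W684.FM.Om1) ∧
    (Pool.Agent.W684.FM.MartinFor Pool.Agent.W684.FM.Om1 ↔
      Pool.Agent.W684.MartinAxiomAleph1) ∧
    -- under Martin's axiom, the sentence `Ψ` can be forced
    (Pool.Agent.W684.FM.MartinFor Pool.Agent.W684.FM.Om1 →
      ∃ (K P : Type) (_ : Preorder P), Nonempty P ∧
        (∀ A : Set P, (∀ p ∈ A, ∀ q ∈ A, p ≠ q → ¬ ∃ r, r ≤ p ∧ r ≤ q) → A.Countable) ∧
        ∀ p : P, p ∈ PsiHolds P K) ∧
    -- the sentence `Ψ` implies `cov(M) < 𝔰𝔰_c`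
    (∀ K : Type, PsiFor K → covM < ssc) :=
  ⟨Pool.Agent.W684.FM.exists_forcing Pool.Agent.W684.FM.Om1,
    Pool.Agent.W684.FM.martinFor_om1_iff, exists_forcing,
    fun _ h => (covM_le h.1).trans_lt (lt_ssc h)⟩

end Pool.Agent.Results.MP_70b496_lc.CovLtSubseries
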